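import Pool.Agent.Helper52.SX.Goals2
import Pool.Agent.Helper48.CS.PTX

/-!
# Project SX, packet POL: the lists in polynomial time
-/

set_option autoImplicit false

namespace Pool.Agent.Helper76.SX

open Pool.Agent.Helper81.CC Pool.Agent.Helper78.DT Pool.Agent.Helper51.ZP Pool.Agent.Helper52.SX
open Pool.Agent.Helper78.JT (Clause CList)

section

variable {α : Type} [ToData α]

theorem pt_cl {n : α → ℕ} {F : α → List Clause} (hn : PolyTime n) (hF : PolyTime F) :
    PolyTime fun a => cl (n a) (F a) := by
  unfold cl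
  refine PolyTime.list_map
    (l := fun a => (F a).filter fun C =>
      !(C.any fun p => C.contains (p.1, !p.2) || (decide (n a ≤ p.1) && !p.2)))
    (f := fun a C => (C.filter fun p => decide (p.1 < n a)).dedup) ?_ ?_
  · refine PolyTime.filter (l := F)
      (f := fun a C => !(C.any fun p => C.contains (p.1, !p.2) || (decide (n a ≤ p.1) && !p.2)))
      hF ?_
    refine PolyTime.not ?_
    refine PolyTime.any (l := fun z : α × Clause => z.2)
      (f := fun (z : α × Clause) p =>
        z.2.contains (p.1, !p.2) || (decide (n z.1 ≤ p.1) && !p.2)) (by fun_prop) ?_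
    refine PolyTime.or ?_ ?_
    · refine PolyTime.contains (f := fun w : (α × Clause) × (ℕ × Bool) => (w.2.1, !w.2.2))
        (l := fun w => w.1.2) (by fun_prop) (by fun_prop)
    · refine PolyTime.and ?_ (by fun_prop)
      exact PolyTime.decide_le (f := fun w : (α × Clause) × (ℕ × Bool) => n w.1.1)
        (g := fun w => w.2.1) (by fun_prop) (by fun_prop)
  · refine Pool.Agent.Helper48.CS.pt_dedup
      (l := fun z : α × Clause => z.2.filter fun p => decide (p.1 < n z.1)) ?_
    refine PolyTime.filter (l := fun z : α × Clause => z.2)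
      (f := fun (z : α × Clause) p => decide (p.1 < n z.1)) (by fun_prop) ?_
    exact PolyTime.decide_lt (f := fun w : (α × Clause) × (ℕ × Bool) => w.2.1)
      (g := fun w => n w.1.1) (by fun_prop) (by fun_prop)

theorem nx_eq (F : List Clause) (a : List (ℕ × Bool)) :
    nx F a = (F.find? fun C => !(C.any fun p => a.contains p)).elim 1 fun C =>
      (C.find? fun p => !a.contains (p.1, !p.2)).elim 0 fun p => p.1 + 2 := by
  unfold nx
  cases h : F.find? fun C => !(C.any fun p => a.contains p) with
  | none => rfl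
  | some C =>
    simp only [Option.elim]
    cases h2 : C.find? fun p => !a.contains (p.1, !p.2) <;> rfl

theorem pt_nx {F : α → List Clause} {a : α → List (ℕ × Bool)} (hF : PolyTime F)
    (ha : PolyTime a) : PolyTime fun x => nx (F x) (a x) := by
  have h1 : PolyTime fun x => ((F x).find? fun C => !(C.any fun p => (a x).contains p)).elim 1
      fun C => (C.find? fun p => !(a x).contains (p.1, !p.2)).elim 0 fun p => p.1 + 2 := by
    refine PolyTime.option_elim (o := fun x =>
      (F x).find? fun C => !(C.any fun p => (a x).contains p)) (f := fun _ => 1)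
      (g := fun x C => (C.find? fun p => !(a x).contains (p.1, !p.2)).elim 0 fun p => p.1 + 2)
      ?_ (by fun_prop) ?_
    · refine PolyTime.find? (l := F) (f := fun x C => !(C.any fun p => (a x).contains p)) hF ?_
      refine PolyTime.not ?_
      refine PolyTime.any (l := fun z : α × Clause => z.2)
        (f := fun (z : α × Clause) p => (a z.1).contains p) (by fun_prop) ?_
      exact PolyTime.contains (f := fun w : (α × Clause) × (ℕ × Bool) => w.2)
        (l := fun w => a w.1.1) (by fun_prop) (by fun_prop)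
    · refine PolyTime.option_elim (o := fun z : α × Clause =>
        z.2.find? fun p => !(a z.1).contains (p.1, !p.2)) (f := fun _ => 0)
        (g := fun _ p => p.1 + 2) ?_ (by fun_prop) (by fun_prop)
      refine PolyTime.find? (l := fun z : α × Clause => z.2)
        (f := fun (z : α × Clause) p => !(a z.1).contains (p.1, !p.2)) (by fun_prop) ?_
      refine PolyTime.not ?_
      exact PolyTime.contains (f := fun w : (α × Clause) × (ℕ × Bool) => (w.2.1, !w.2.2))
        (l := fun w => a w.1.1) (by fun_prop) (by fun_prop)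
  exact PolyTime.congr h1 fun x => (nx_eq _ _).symm

end

/-- One level of the tree. -/
def lstep (F : List Clause) (H : List (List (ℕ × Bool))) : List (List (ℕ × Bool)) :=
  H.flatMap fun a =>
    if 2 ≤ nx F a then [a ++ [(nx F a - 2, false)], a ++ [(nx F a - 2, true)]] else [a]

theorem lvs_eq (F : List Clause) (D : ℕ) : lvs F D = (lstep F)^[D] [[]] := rfl

theorem sz_term (m k : ℕ) (a : List (ℕ × Bool)) (hk : a.length ≤ k) (ha : ∀ p ∈ a, p.1 < m) :
    Pool.Agent.Helper81.CC.sz a ≤ k * (2 * m + 6) + 1 := by
  have h1 := sz_list_le (2 * m + 5) a (by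
    intro p hp
    have h2 := ha p hp
    have h3 := sz_bool p.2
    have h4 : Pool.Agent.Helper81.CC.sz p = Pool.Agent.Helper81.CC.sz p.1 +
      Pool.Agent.Helper81.CC.sz p.2 + 1 := sz_pair p.1 p.2
    rw [sz_nat] at h4
    omega)
  refine h1.trans (Nat.add_le_add_right ?_ _)
  exact Nat.mul_le_mul hk (by omega)

theorem sz_lvs (hLev : LevStmt) (n : ℕ) (F : List Clause) (hF : Cln n F) (D k : ℕ) (hk : k ≤ D) :
    Pool.Agent.Helper81.CC.sz (lvs F k) ≤ 2 ^ D * (D * (2 * n + 6) + 1 + 1) + 1 := by
  obtain ⟨h1, h2, -⟩ := hLev n F k hF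
  refine (sz_list_le (D * (2 * n + 6) + 1) _ ?_).trans ?_
  · intro a ha
    obtain ⟨h3, -, h4⟩ := h2 a ha
    exact sz_term n D a (h3.trans hk) h4
  · refine Nat.add_le_add_right (Nat.mul_le_mul_right _ (h1.trans ?_)) _
    exact Nat.pow_le_pow_right (by norm_num) hk

theorem two_pow_lg (N : ℕ) : 2 ^ lg N ≤ 4 * N + 4 := by
  unfold lg
  rcases Nat.eq_zero_or_pos N with rfl | h
  · norm_num
  · have := Nat.pow_log_le_self 2 h.ne'
    rw [pow_add]
    omega

theorem two_pow_Klg (K0 N : ℕ) : 2 ^ (K0 * lg N) ≤ (4 * N + 4) ^ K0 := by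
  rw [mul_comm, pow_mul]
  exact Nat.pow_le_pow_left (two_pow_lg N) K0

theorem PBd_pow {α : Type} [ToData α] {f : α → ℕ} (hf : PBd f) (k : ℕ) :
    PBd fun a => f a ^ k := by
  induction k with
  | zero => simpa using PBd.const (α := α) 1
  | succ k ih =>
    simp only [pow_succ]
    exact ih.mul hf

theorem pt_lvs (hCln : ClnStmt) (hLev : LevStmt) (hP : PtlStmt) {α : Type} [ToData α]
    {n N : α → ℕ} {F : α → List Clause} (K0 : ℕ) (hn : PolyTime n) (hN : PolyTime N)
    (hF : PolyTime F) : PolyTime fun a => lvs (cl (n a) (F a)) (K0 * lg (N a)) := by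
  have hlg : PolyTime fun a => lg (N a) := (hP α N N N hN hN hN).1
  have hD : PolyTime fun a => K0 * lg (N a) := PolyTime.mul (by fun_prop) hlg
  have hcl : PolyTime fun a => cl (n a) (F a) := pt_cl hn hF
  have h1 : PolyTime fun a => (lstep (cl (n a) (F a)))^[K0 * lg (N a)] [[]] := by
    refine PolyTime.iterate_bd (n := fun a => K0 * lg (N a))
      (s0 := fun _ => ([[]] : List (List (ℕ × Bool))))
      (step := fun a H => lstep (cl (n a) (F a)) H) hD (by fun_prop) ?_
      (B := fun a => (4 * N a + 4) ^ K0 * (K0 * lg (N a) * (2 * n a + 6) + 1 + 1) + 1) ?_ ?_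
    · unfold lstep
      have hx : PolyTime fun w : (α × List (List (ℕ × Bool))) × List (ℕ × Bool) =>
          nx (cl (n w.1.1) (F w.1.1)) w.2 := by
        refine pt_nx ?_ (by fun_prop)
        exact PolyTime.comp (g := fun a => cl (n a) (F a))
          (f := fun w : (α × List (List (ℕ × Bool))) × List (ℕ × Bool) => w.1.1) hcl (by fun_prop)
      refine PolyTime.flatMap (l := fun z : α × List (List (ℕ × Bool)) => z.2)
        (f := fun (z : α × List (List (ℕ × Bool))) a =>
          if 2 ≤ nx (cl (n z.1) (F z.1)) a then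
            [a ++ [(nx (cl (n z.1) (F z.1)) a - 2, false)],
              a ++ [(nx (cl (n z.1) (F z.1)) a - 2, true)]] else [a]) (by fun_prop) ?_
      refine PolyTime.itep (PolyTime.decide_le (by fun_prop) hx) ?_ (by fun_prop)
      have hx2 : PolyTime fun w : (α × List (List (ℕ × Bool))) × List (ℕ × Bool) =>
          nx (cl (n w.1.1) (F w.1.1)) w.2 - 2 := PolyTime.sub hx (by fun_prop)
      have hb : ∀ b : Bool, PolyTime fun w : (α × List (List (ℕ × Bool))) × List (ℕ × Bool) =>
          w.2 ++ [(nx (cl (n w.1.1) (F w.1.1)) w.2 - 2, b)] := fun b =>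
        PolyTime.append (by fun_prop)
          (PolyTime.list_cons (PolyTime.pair hx2 (by fun_prop)) (by fun_prop))
      exact PolyTime.list_cons (hb false) (PolyTime.list_cons (hb true) (by fun_prop))
    · have b1 : PBd fun a => (4 * N a + 4) ^ K0 :=
        PBd_pow (((PBd.const 4).mul (PBd.nat hN)).add (PBd.const 4)) K0
      have b2 : PBd fun a => K0 * lg (N a) * (2 * n a + 6) + 1 + 1 :=
        (((PBd.nat hD).mul (((PBd.const 2).mul (PBd.nat hn)).add (PBd.const 6))).add
          (PBd.const 1)).add (PBd.const 1)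
      exact (b1.mul b2).add (PBd.const 1)
    · intro a k hk
      refine (sz_lvs hLev (n a) (cl (n a) (F a)) (hCln (n a) (F a)).1 (K0 * lg (N a)) k hk).trans ?_
      exact Nat.add_le_add_right (Nat.mul_le_mul_right _ (two_pow_Klg K0 (N a))) _
  exact h1

theorem pol (hCln : ClnStmt) (hLev : LevStmt) (hP : PtlStmt) : PolStmt := by
  intro α _ n N f K0 hn hN hf
  have hl : PolyTime fun z : α × (List Clause × Bool) =>
      lvs (cl (n z.1) z.2.1) (K0 * lg (N z.1)) :=
    pt_lvs hCln hLev hP (n := fun z : α × (List Clause × Bool) => n z.1)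
      (N := fun z => N z.1) (F := fun z => z.2.1) K0 (by fun_prop) (by fun_prop) (by fun_prop)
  have hx : PolyTime fun w : (α × (List Clause × Bool)) × List (ℕ × Bool) =>
      nx (cl (n w.1.1) w.1.2.1) w.2 := by
    refine pt_nx ?_ (by fun_prop)
    exact pt_cl (n := fun w : (α × (List Clause × Bool)) × List (ℕ × Bool) => n w.1.1)
      (F := fun w => w.1.2.1) (by fun_prop) (by fun_prop)
  have hfl : PolyTime fun z : α × (List Clause × Bool) =>
      (lvs (cl (n z.1) z.2.1) (K0 * lg (N z.1))).filter fun a =>
        decide (nx (cl (n z.1) z.2.1) a ≠ 0) := by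
    refine PolyTime.filter (f := fun (z : α × (List Clause × Bool)) a =>
        decide (nx (cl (n z.1) z.2.1) a ≠ 0)) hl ?_
    exact PolyTime.decide_ne hx (by fun_prop)
  have hd : PolyTime fun w : (α × (List Clause × Bool)) × List (ℕ × Bool) =>
      decide (nx (cl (n w.1.1) w.1.2.1) w.2 = 1) := PolyTime.decide_eq hx (by fun_prop)
  constructor
  · unfold vls
    refine PolyTime.flatMap (l := f)
      (f := fun a e => ((lvs (cl (n a) e.1) (K0 * lg (N a))).filter fun b =>
        decide (nx (cl (n a) e.1) b ≠ 0)).map fun b =>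
          (b, decide (nx (cl (n a) e.1) b = 1) && e.2)) hf ?_
    refine PolyTime.list_map (f := fun (z : α × (List Clause × Bool)) b =>
      (b, decide (nx (cl (n z.1) z.2.1) b = 1) && z.2.2)) hfl ?_
    exact PolyTime.pair (by fun_prop) (PolyTime.and hd (by fun_prop))
  · unfold ols
    refine PolyTime.append ?_ (by fun_prop)
    refine PolyTime.flatMap (l := f)
      (f := fun a e => ((lvs (cl (n a) e.1) (K0 * lg (N a))).filter fun b =>
        decide (nx (cl (n a) e.1) b ≠ 0)).map fun b =>
          (b, decide (nx (cl (n a) e.1) b = 1))) hf ?_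
    refine PolyTime.list_map (f := fun (z : α × (List Clause × Bool)) b =>
      (b, decide (nx (cl (n z.1) z.2.1) b = 1))) hfl ?_
    exact PolyTime.pair (by fun_prop) hd

end Pool.Agent.Helper76.SX
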